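import Pool.Agent.H7.CP.Targets

/-!
# Module HLX of MP_e37c09_lc: minimality of `(Th, gh)` among the coherent pairs
-/

open Ordinal Cardinal Order Set
open scoped ZFSet

universe u

namespace Pool.Agent.H54.CP.HLX

open _root_.HD

section
variable {en : Ordinal.{u} → ZFSet.{u}} {Q : Ordinal.{u} → Ordinal.{u} → Prop}
  {t : Ordinal.{u} → Ordinal.{u} → Ordinal.{u}}

/-- the value of `Q` -/
private def QQ (en : Ordinal.{u} → ZFSet.{u}) (Q : Ordinal.{u} → Ordinal.{u} → Prop)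
    (t : Ordinal.{u} → Ordinal.{u} → Ordinal.{u}) (z j a ξ : Ordinal.{u}) : Prop :=
  Q (af en z j) (t a ξ)

/-- `a` is the least ordinal below `ξ` which is not in the set number `j` -/
private def AA (en : Ordinal.{u} → ZFSet.{u}) (Q : Ordinal.{u} → Ordinal.{u} → Prop)
    (t : Ordinal.{u} → Ordinal.{u} → Ordinal.{u}) (z j ξ a : Ordinal.{u}) : Prop :=
  a < ξ ∧ ¬ QQ en Q t z j a ξ ∧ ∀ a' < a, QQ en Q t z j a' ξ

/-- `b` is an upper bound -/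
private def Bd (en : Ordinal.{u} → ZFSet.{u}) (Q : Ordinal.{u} → Ordinal.{u} → Prop)
    (t : Ordinal.{u} → Ordinal.{u} → Ordinal.{u}) (z i ξ b : Ordinal.{u}) : Prop :=
  ∀ j < i, ∀ a, AA en Q t z j ξ a → a ≤ b

private theorem do_QQ (hen : EN en) (hQ : DR Q) (ht : Prf t) (z : Ordinal.{u}) :
    DO fun w => QQ en Q t z (w 0) (w 1) (w 2) := by
  have h1 : DO fun w : ℕ → Ordinal.{u} => ∃ x, ∃ y, x = af en z (w 0) ∧ y = t (w 1) (w 2) ∧ Q x y := by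
    refine DO.ex (R := fun x w => ∃ y, x = af en z (w 0) ∧ y = t (w 1) (w 2) ∧ Q x y) ?_
    refine DO.ex (R := fun y w => w 0 = af en z (w 1) ∧ y = t (w 2) (w 3) ∧ Q (w 0) y) ?_
    refine DO.and ?_ (DO.and ?_ (DO.s2 hQ 1 0))
    · have h2 := (All.fdd en hen).1
      have h3 : DO fun w : ℕ → Ordinal.{u} => w 1 = af en z (w 0) :=
        DO.sub (R := fun c w => w 1 = af en c (w 0)) z
          ((h2.ren fun n => if n = 0 then 1 else if n = 1 then 0 else 2).congr fun w => by simp)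
      exact (h3.ren fun n => if n = 0 then 2 else 1).congr fun w => by simp
    · exact (ht.dfn.ren fun n => if n = 0 then 3 else if n = 1 then 4 else 0).congr
        fun w => by simp
  refine h1.congr fun w => ?_
  constructor
  · intro h
    exact ⟨_, _, rfl, rfl, h⟩
  · rintro ⟨x, y, rfl, rfl, h⟩
    exact h

private theorem do_AA (hen : EN en) (hQ : DR Q) (ht : Prf t) (z : Ordinal.{u}) :
    DO fun w => AA en Q t z (w 0) (w 1) (w 2) := by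
  have h1 := do_QQ hen hQ ht z
  refine (DO.lt 2 1).and (((h1.ren fun n => if n = 0 then 0 else if n = 1 then 2 else 1).congr
    fun w => by simp).not.and ?_)
  refine DO.allLt (R := fun a' w => QQ en Q t z (w 0) a' (w 1)) 2 ?_
  exact (h1.ren fun n => if n = 0 then 1 else if n = 1 then 0 else 2).congr fun w => by simp

private theorem do_Bd (hen : EN en) (hQ : DR Q) (ht : Prf t) (z i : Ordinal.{u}) :
    DO fun w => Bd en Q t z i (w 0) (w 1) := by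
  refine DO.allLtc (R := fun j w => ∀ a, AA en Q t z j (w 0) a → a ≤ w 1) i ?_
  refine DO.all (R := fun a w => AA en Q t z (w 0) (w 1) a → a ≤ w 2) ?_
  refine DO.imp ?_ (DO.le 0 3)
  exact ((do_AA hen hQ ht z).ren fun n => if n = 0 then 1 else if n = 1 then 2 else 0).congr
    fun w => by simp

private theorem ds_zs (hen : EN en) (hQ : DR Q) (ht : Prf t) (z i : Ordinal.{u}) :
    DS {x | ∃ ξ a, x = t a ξ ∧ ¬ (Bd en Q t z i ξ a ∧ ∀ b < a, ¬ Bd en Q t z i ξ b)} := by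
  have h1 := do_Bd hen hQ ht z i
  refine DO.ex (R := fun ξ w => ∃ a, w 0 = t a ξ ∧
    ¬ (Bd en Q t z i ξ a ∧ ∀ b < a, ¬ Bd en Q t z i ξ b)) ?_
  refine DO.ex (R := fun a w => w 1 = t a (w 0) ∧
    ¬ (Bd en Q t z i (w 0) a ∧ ∀ b < a, ¬ Bd en Q t z i (w 0) b)) ?_
  refine DO.and ?_ (DO.not (DO.and (DO.s2 h1 1 0) ?_))
  · exact (ht.dfn.ren fun n => if n = 0 then 0 else if n = 1 then 1 else 2).congr
      fun w => by simp
  · refine DO.allLt (R := fun b w => ¬ Bd en Q t z i (w 1) b) 0 ?_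
    exact (DO.s2 h1 2 0).not

private theorem AA.unique {z j ξ a b : Ordinal.{u}} (h : AA en Q t z j ξ a)
    (h' : AA en Q t z j ξ b) : a = b := by
  rcases lt_trichotomy a b with h1 | h1 | h1
  · exact absurd (h'.2.2 a h1) h.2.1
  · exact h1
  · exact absurd (h.2.2 b h1) h'.2.1

private theorem bounded (hen : EN en) (hQ : DR Q) (ht : Prf t) (z i ξ : Ordinal.{u})
    (hξ : RegHOD ξ) (hi : i < ξ) : ∃ b < ξ, Bd en Q t z i ξ b := by
  by_contra hn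
  push Not at hn
  apply hξ.2
  have h0 : 0 < ξ := bot_le.trans_lt hi
  have hDR : DR fun j c => AA en Q t z j ξ c ∨ ((¬ ∃ a, AA en Q t z j ξ a) ∧ c = 0) := by
    have h1 := do_AA hen hQ ht z
    refine DO.sub (R := fun x w => AA en Q t z (w 0) x (w 1) ∨
      ((¬ ∃ a, AA en Q t z (w 0) x a) ∧ w 1 = 0)) ξ ?_
    refine DO.or ?_ (DO.and (DO.not ?_) (DO.eqc 2 0))
    · exact (h1.ren fun n => if n = 0 then 1 else if n = 1 then 0 else 2).congr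
        fun w => by simp
    · refine DO.ex (R := fun a w => AA en Q t z (w 1) (w 0) a) ?_
      exact (h1.ren fun n => if n = 0 then 2 else if n = 1 then 1 else 0).congr
        fun w => by simp
  have huni : ∀ j c c' : Ordinal.{u},
      (AA en Q t z j ξ c ∨ ((¬ ∃ a, AA en Q t z j ξ a) ∧ c = 0)) →
      (AA en Q t z j ξ c' ∨ ((¬ ∃ a, AA en Q t z j ξ a) ∧ c' = 0)) → c = c' := by
    rintro j c c' (h | h) (h' | h')
    · exact h.unique h'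
    · exact absurd ⟨c, h⟩ h'.1
    · exact absurd ⟨c', h'⟩ h.1
    · rw [h.2, h'.2]
  refine ⟨i, hi, rs i ξ _, hod_rs hDR i ξ, ⟨fun p hp => ?_, fun x hx => ?_⟩, fun b hb => ?_⟩
  · obtain ⟨a, ha, b, hb, -, rfl⟩ := mem_rs.1 hp
    exact ZFSet.pair_mem_prod.2 ⟨toZFSet_mem_toZFSet_iff.2 ha, toZFSet_mem_toZFSet_iff.2 hb⟩
  · obtain ⟨j, hj, rfl⟩ := mem_toZFSet_iff.1 hx
    obtain ⟨c, hc, hR⟩ : ∃ c < ξ,
        (AA en Q t z j ξ c ∨ ((¬ ∃ a, AA en Q t z j ξ a) ∧ c = 0)) := by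
      by_cases hex : ∃ a, AA en Q t z j ξ a
      · obtain ⟨a, ha⟩ := hex
        exact ⟨a, ha.1, Or.inl ha⟩
      · exact ⟨0, h0, Or.inr ⟨hex, rfl⟩⟩
    refine ⟨c.toZFSet, pair_mem_rs.2 ⟨hj, hc, hR⟩, fun y hy => ?_⟩
    obtain ⟨a', -, b', -, hR', he⟩ := mem_rs.1 hy
    obtain ⟨he1, rfl⟩ := ZFSet.pair_injective he
    have := toZFSet_injective he1
    subst this
    rw [huni _ _ _ hR' hR]
  · have h1 := hn b hb
    unfold Bd at h1
    push Not at h1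
    obtain ⟨j, hj, a, ha, hba⟩ := h1
    exact ⟨j, hj, a, hba.le, pair_mem_rs.2 ⟨hj, ha.1, Or.inl ha⟩⟩

end

/-- Case 1: the points which are not good -/
private theorem core1 {en : Ordinal.{u} → ZFSet.{u}} (hen : EN en) {K : Cardinal.{u}}
    {Q : Ordinal.{u} → Ordinal.{u} → Prop} {f : Ordinal.{u} → Ordinal.{u}}
    {t : Ordinal.{u} → Ordinal.{u} → Ordinal.{u}} {X : Set Ordinal.{u}} (hK0 : ℵ₀ < K)
    (ht : Prf t) (hQ : DR Q) (hX : ∀ ξ ∈ X, RegHOD ξ) {ν : Ordinal.{u}} (hν : ν ≤ K.ord)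
    (hcof : ℵ₀ < ν.cof)
    (hcov : ∀ (T : Set Ordinal.{u}) (g : Ordinal.{u} → Ordinal.{u}), Pos om ν T →
      (∀ γ ∈ T, γ < ν → g γ < γ) →
        ∃ z, ∃ i < ν, Pos om ν {γ | γ ∈ T ∧ ∃ j < i, af en z j = f (g γ)})
    {T' : Set Ordinal.{u}} {g' : Ordinal.{u} → Ordinal.{u}} (hLN : LN en t X ν T' g') :
    ¬ Pos om ν {γ | γ ∈ T' ∧ ¬ Gdd Q f t γ (g' γ)} := by
  intro hB
  have hlim : IsSuccLimit ν := Ordinal.one_lt_cof_iff.1 (Cardinal.one_lt_aleph0.trans hcof)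
  classical
  have hex : ∀ γ, ∃ ζ, (γ ∈ T' ∧ ¬ Gdd Q f t γ (g' γ)) → γ < ν →
      ζ < γ ∧ (∀ a < γ, Q (f ζ) (t a (g' γ))) ∧ ∃ a < g' γ, ¬ Q (f ζ) (t a (g' γ)) := by
    intro γ
    by_cases h : (γ ∈ T' ∧ ¬ Gdd Q f t γ (g' γ)) ∧ γ < ν
    · have h1 := h.1.2
      unfold Gdd at h1
      push Not at h1
      obtain ⟨ζ, h2, h3, a, h4, h5⟩ := h1
      exact ⟨ζ, fun _ _ => ⟨h2, h3, a, h4, h5⟩⟩
    · exact ⟨0, fun h1 h2 => absurd ⟨h1, h2⟩ h⟩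
  choose ζ hζ using hex
  obtain ⟨z, i, hi, hB1⟩ := hcov _ ζ hB fun γ hγ hγν => (hζ γ hγ hγν).1
  obtain ⟨zs, hzs⟩ := (All.ea en hen).2.2.1 _ (ds_zs hen hQ ht z i) K.ord
  have hB2 := pos_diff All.va hcof hB1 (All.vb om ν (succ i) hlim (hlim.succ_lt hi))
  refine hLN.gd zs (hB2.mono ?_)
  rintro γ hγ ⟨⟨hγB, j, hj, he⟩, hγi⟩ -
  rw [mem_Iio, not_lt] at hγi
  have hiγ : i < γ := (lt_succ i).trans_le hγi
  obtain ⟨h1, h2, h3⟩ := hLN.lt γ hγB.1 hγ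
  obtain ⟨-, h5, a0, h6, h7⟩ := hζ γ hγB hγ
  rw [← he] at h5 h7
  have hgK : g' γ < K.ord := h2.trans_le hν
  have htK : ∀ a < g' γ, t a (g' γ) < K.ord := fun a ha =>
    ht.lt K hK0.le a (ha.trans hgK) _ hgK
  -- the least element
  obtain ⟨a1, ha1⟩ : ∃ a1, AA en Q t z j (g' γ) a1 := by
    obtain ⟨m, hm⟩ : ∃ m, m = sInf {a | ¬ Q (af en z j) (t a (g' γ))} := ⟨_, rfl⟩
    have h8 : ¬ Q (af en z j) (t m (g' γ)) := by
      rw [hm]
      exact csInf_mem (s := {a | ¬ Q (af en z j) (t a (g' γ))}) ⟨a0, h7⟩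
    refine ⟨m, lt_of_le_of_lt ?_ h6, h8, fun a ha => ?_⟩
    · rw [hm]
      exact csInf_le' h7
    · by_contra h9
      rw [hm] at ha
      exact absurd (csInf_le' (s := {a | ¬ Q (af en z j) (t a (g' γ))}) h9) (not_le.2 ha)
  have hγa : γ ≤ a1 := by
    by_contra hlt
    rw [not_le] at hlt
    exact ha1.2.1 (h5 a1 hlt)
  obtain ⟨b0, hb0, hb1⟩ := bounded hen hQ ht z i (g' γ) (hX _ h3) (hiγ.trans h1)
  obtain ⟨G, hG⟩ : ∃ G, G = sInf {b | Bd en Q t z i (g' γ) b} := ⟨_, rfl⟩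
  have hG1 : Bd en Q t z i (g' γ) G := by
    rw [hG]
    exact csInf_mem (s := {b | Bd en Q t z i (g' γ) b}) ⟨b0, hb1⟩
  have hG2 : ∀ b < G, ¬ Bd en Q t z i (g' γ) b := by
    intro b hb h
    rw [hG] at hb
    exact absurd (csInf_le' (s := {b | Bd en Q t z i (g' γ) b}) h) (not_le.2 hb)
  have hGlt : G < g' γ := by
    refine lt_of_le_of_lt ?_ hb0
    rw [hG]
    exact csInf_le' hb1
  have hγG : γ ≤ G := hγa.trans (hG1 j hj a1 ha1)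
  refine ⟨hγB.1, fun a ha => ?_, G, hGlt, fun h => ?_⟩
  · rw [hzs]
    refine ⟨⟨g' γ, a, rfl, fun h => ?_⟩, htK a (ha.trans h1)⟩
    exact hG2 a (ha.trans_le hγG) h.1
  · rw [hzs] at h
    obtain ⟨⟨ξ, a, h8, h9⟩, -⟩ := h
    obtain ⟨rfl, rfl⟩ := ht.inj _ _ _ _ h8
    exact h9 ⟨hG1, hG2⟩

/-- the relation `Q (af en z j) b` is definable -/
private theorem dr_aq {en : Ordinal.{u} → ZFSet.{u}} (hen : EN en)
    {Q : Ordinal.{u} → Ordinal.{u} → Prop} (hQ : DR Q) (z : Ordinal.{u}) :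
    DR fun j b => Q (af en z j) b := by
  have h1 : DO fun w : ℕ → Ordinal.{u} => ∃ x, x = af en z (w 0) ∧ Q x (w 1) := by
    refine DO.ex (R := fun x w => x = af en z (w 0) ∧ Q x (w 1)) ?_
    refine DO.and ?_ (DO.s2 hQ 0 2)
    have h2 := (All.fdd en hen).1
    have h3 : DO fun w : ℕ → Ordinal.{u} => w 1 = af en z (w 0) :=
      DO.sub (R := fun c w => w 1 = af en c (w 0)) z
        ((h2.ren fun n => if n = 0 then 1 else if n = 1 then 0 else 2).congr fun w => by simp)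
    exact (h3.ren fun n => if n = 0 then 1 else 0).congr fun w => by simp
  refine h1.congr fun w => ?_
  constructor
  · intro h
    exact ⟨_, rfl, h⟩
  · rintro ⟨x, rfl, h⟩
    exact h

/-- Case 2: the points where `H` differs -/
private theorem core2 {en : Ordinal.{u} → ZFSet.{u}} (hen : EN en) {K : Cardinal.{u}}
    {Q : Ordinal.{u} → Ordinal.{u} → Prop} {f : Ordinal.{u} → Ordinal.{u}}
    {t : Ordinal.{u} → Ordinal.{u} → Ordinal.{u}} {X : Set Ordinal.{u}}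
    {H : Ordinal.{u} → Set Ordinal.{u} → Prop} (hQ : DR Q) (hH : HR H)
    {ν : Ordinal.{u}} (hν : ν ≤ K.ord) (hcof : ℵ₀ < ν.cof)
    (hcov : ∀ (T : Set Ordinal.{u}) (g : Ordinal.{u} → Ordinal.{u}), Pos om ν T →
      (∀ γ ∈ T, γ < ν → g γ < γ) →
        ∃ z, ∃ i < ν, Pos om ν {γ | γ ∈ T ∧ ∃ j < i, af en z j = f (g γ)})
    (hco : CoH K Q f H ν)
    {T' : Set Ordinal.{u}} {g' : Ordinal.{u} → Ordinal.{u}} (hLN : LNh en t X H ν T' g') :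
    ¬ Pos om ν {γ | γ ∈ T' ∧ ∃ ζ < γ,
      ¬ (H K.ord {a | Q (f ζ) a} ↔ H (g' γ) {a | Q (f ζ) a})} := by
  intro hB
  classical
  have hex : ∀ γ, ∃ ζ, (γ ∈ T' ∧ ∃ ζ < γ,
      ¬ (H K.ord {a | Q (f ζ) a} ↔ H (g' γ) {a | Q (f ζ) a})) →
      ζ < γ ∧ ¬ (H K.ord {a | Q (f ζ) a} ↔ H (g' γ) {a | Q (f ζ) a}) := by
    intro γ
    by_cases h : (γ ∈ T' ∧ ∃ ζ < γ,
      ¬ (H K.ord {a | Q (f ζ) a} ↔ H (g' γ) {a | Q (f ζ) a}))
    · obtain ⟨-, ζ, h1, h2⟩ := h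
      exact ⟨ζ, fun _ => ⟨h1, h2⟩⟩
    · exact ⟨0, fun h1 => absurd h1 h⟩
  choose ζ hζ using hex
  obtain ⟨z, i, hi, hB1⟩ := hcov _ ζ hB fun γ hγ hγν => (hζ γ hγ).1
  obtain ⟨z2, hz2⟩ := (All.ea en hen).2.2.2 _ (dr_aq hen hQ z) K.ord
  have hB2 := pos_diff All.va hcof hB1 (hLN.co z2 i hi)
  have hlim : IsSuccLimit ν := Ordinal.one_lt_cof_iff.1 (Cardinal.one_lt_aleph0.trans hcof)
  obtain ⟨γ, hγ, -, ⟨⟨hγB, j, hj, he⟩, hγi⟩, -⟩ := hB2 univ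
    ⟨fun a ha => ⟨succ a, hlim.succ_lt ha, lt_succ a, mem_univ _⟩, fun _ _ _ _ => mem_univ _⟩
  obtain ⟨h1, h2, h3⟩ := hLN.ln.lt γ hγB.1 hγ
  obtain ⟨hζγ, hne⟩ := hζ γ hγB
  have hgK : g' γ < K.ord := h2.trans_le hν
  have hjK : j < K.ord := (hj.trans hi).trans_le hν
  have hEE : ∀ ξ ≤ K.ord, (H ξ (E2 en z2 j) ↔ H ξ {a | Q (f (ζ γ)) a}) := by
    intro ξ hξ
    refine hH.ext ξ _ _ fun a ha => ?_
    rw [hz2, ← he]
    exact ⟨fun h => h.2.2, fun h => ⟨hjK, ha.trans_le hξ, h⟩⟩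
  have h4 : (H ν (E2 en z2 j) ↔ H (g' γ) (E2 en z2 j)) := by
    by_contra h
    exact hγi ⟨hγB.1, j, hj, h⟩
  rw [hEE ν hν, hEE _ hgK.le] at h4
  exact hne ((hco (ζ γ) (hζγ.trans hγ)).trans h4)

theorem X : T_HLX.{u} := by
  intro en hen K lam Q f t X H hK hK0 ht hEQ hX hH
  obtain ⟨C1, hC1, hC1'⟩ := All.cov en hen K lam hK hK0 hEQ.lt f hEQ.sj.lt
  refine ⟨C1, hC1, fun ν hν hC hNE hco T' g' hLN hB => ?_⟩
  have hcov := hC1' ν hν hC hNE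
  have h1 := core1 hen hK0 ht hEQ.dr hX hν hNE.1 hcov hLN.ln
  have h2 := core2 hen hEQ.dr hH hν hNE.1 hcov hco hLN
  refine null_union All.va hNE.1 h1 h2 (hB.mono ?_)
  rintro γ hγν ⟨hγ, h⟩ -
  by_contra hn
  have hn1 : Gdd Q f t γ (g' γ) := by
    by_contra h3
    exact hn (Or.inl ⟨hγ, h3⟩)
  have hn2 : ∀ ζ < γ, (H K.ord {a | Q (f ζ) a} ↔ H (g' γ) {a | Q (f ζ) a}) := by
    intro ζ hζ
    by_contra h3
    exact hn (Or.inr ⟨hγ, ζ, hζ, h3⟩)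
  obtain ⟨h3, h4, h5⟩ := hLN.ln.lt γ hγ hγν
  have h6 : g' γ ∈ {ξ | γ < ξ ∧ ξ < K.ord ∧ ξ ∈ X ∧ Gdh K Q f t H γ ξ} :=
    ⟨h3, h4.trans_le hν, h5, hn1, hn2⟩
  rcases h with h | h
  · exact h ⟨_, h6⟩
  · exact absurd (csInf_le' h6) (not_le.2 h)

end Pool.Agent.H54.CP.HLX
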